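import Pool.Agent.H43.PS.Targets

/-! Row TRP of the board `psd_modules`: power means of the eigenvalues. -/

namespace Pool.Agent.H11.PSD

open H43.PS Matrix Finset

theorem TRP (hSPC : T_SPC) : T_TRP := by
  intro κ _ _ p X hp hX
  obtain ⟨U, a, hU, hU', hA, hnn, hf⟩ := hSPC κ X hX.1
  have ha : ∀ i, 0 ≤ a i := hnn hX
  have htr : X.trace = ∑ i, a i := by
    rw [hA, Matrix.trace_mul_comm, ← Matrix.mul_assoc, hU, Matrix.one_mul, Matrix.trace_diagonal]
  have htp : tp p X = ∑ i, (a i) ^ p := by
    unfold tp
    exact (hf (fun t => t ^ p)).2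
  rw [htr, htp]
  have hp0 : 0 < p := by linarith
  have hS : 0 ≤ ∑ i, a i := Finset.sum_nonneg (fun i _ => ha i)
  have hSp : 0 ≤ ∑ i, a i ^ p := Finset.sum_nonneg (fun i _ => Real.rpow_nonneg (ha i) p)
  constructor
  · have hq : p.HolderConjugate (p.conjExponent) := Real.HolderConjugate.conjExponent hp
    have h := Real.inner_le_Lp_mul_Lq (univ : Finset κ) a (fun _ => (1 : ℝ)) hq
    simp only [mul_one] at h
    have h1 : ∀ i, |a i| = a i := fun i => abs_of_nonneg (ha i)
    simp only [h1, abs_one, Real.one_rpow, Finset.sum_const, Finset.card_univ, nsmul_eq_mul,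
      mul_one] at h
    have h2 : 1 / p.conjExponent = 1 - 1 / p := by
      have := hq.inv_add_inv_eq_one
      simp only [one_div]
      linarith
    rw [h2] at h
    rw [mul_comm]
    exact h
  · have h3 : ∀ i ∈ (univ : Finset κ), a i ^ p ≤ a i * (∑ j, a j) ^ (p - 1) := by
      intro i _
      rcases (ha i).eq_or_lt with h0 | h0
      · rw [← h0, Real.zero_rpow (by linarith)]
        simp
      · have h4 : a i ^ p = a i * a i ^ (p - 1) := by
          rw [Real.rpow_sub h0, Real.rpow_one]
          field_simp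
        rw [h4]
        refine mul_le_mul_of_nonneg_left ?_ (ha i)
        exact Real.rpow_le_rpow (ha i)
          (Finset.single_le_sum (fun j _ => ha j) (Finset.mem_univ i)) (by linarith)
    refine (Finset.sum_le_sum h3).trans ?_
    rw [← Finset.sum_mul]
    rcases hS.eq_or_lt with h0 | h0
    · rw [← h0, zero_mul, Real.zero_rpow (by linarith)]
    · rw [Real.rpow_sub h0, Real.rpow_one]
      rw [mul_div_cancel₀]
      exact h0.ne'

end Pool.Agent.H11.PSD
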